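import Pool.Agent.ESL.S3
import Pool.Agent.ESL.Basic

/-!
Perfect atoms of a linked form space: domination, independence of their ranges, and strong linkage.
Problem MP_d26ff6_al, `-1 = 1`.
-/

set_option linter.unusedSectionVars false
set_option linter.unusedVariables false

namespace Pool.Agent.H34B

open Pool.Agent.ESL
open scoped BigOperators

variable {V : Type} [AddCommGroup V] [Module (ZMod 2) V] [Finite V]

/-- perfect atoms of `R` -/
def PAtom (R : FS V) (w : Fm V) : Prop :=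
  w ∈ R ∧ w ≠ 0 ∧ ∀ q, ∀ b ∈ LinearMap.range w, b ≠ 0 → b ∈ Lx R q → w q = b

/-- every functional in some `L_x` dominates a perfect atom -/
def Dom (R : FS V) : Prop :=
  ∀ b : D V, b ≠ 0 → (∃ x, b ∈ Lx R x) →
    ∃ w, PAtom R w ∧ ∀ r ∈ R, b ∈ LinearMap.range r → LinearMap.range w ≤ LinearMap.range r

section basic

variable {R : FS V} (hA : IsAlt R)

theorem exists_val {w : Fm V} (h : w ≠ 0) : ∃ x, w x ≠ 0 := by
  by_contra hc
  push Not at hc
  exact h (LinearMap.ext hc)

/-- `w q = r q` whenever `r q ∈ range w` -/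
theorem agree {w r : Fm V} (hw : PAtom R w) (hr : r ∈ R) {b : D V} (hb : b ≠ 0)
    (hbw : b ∈ LinearMap.range w) (hbr : b ∈ LinearMap.range r) :
    ∀ q, r q ∈ LinearMap.range w → w q = r q := by
  obtain ⟨x, hx⟩ := hbr
  have hwx : w x = b := hw.2.2 x b hbw hb ⟨r, hr, hx⟩
  intro q hq
  by_cases h0 : r q = 0
  · have h1 : w (q + x) = b := by
      apply hw.2.2 _ b hbw hb
      refine ⟨r, hr, ?_⟩
      rw [map_add, h0, zero_add, hx]
    rw [map_add, hwx] at h1
    have h2 : w q = 0 := by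
      have := congrArg (· + b) h1
      simpa [add_add_self', add_self'] using this
    rw [h2, h0]
  · exact hw.2.2 q _ hq h0 ⟨r, hr, rfl⟩

include hA in
theorem dom_range {w r : Fm V} (hw : PAtom R w) (hr : r ∈ R) {b : D V} (hb : b ≠ 0)
    (hbw : b ∈ LinearMap.range w) (hbr : b ∈ LinearMap.range r) :
    LinearMap.range w ≤ LinearMap.range r := by
  rw [range_le_iff (hA w hw.1) (hA r hr)]
  intro q hq
  rw [LinearMap.mem_ker] at hq ⊢
  rw [agree hw hr hb hbw hbr q (by rw [hq]; exact Submodule.zero_mem _), hq]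

theorem dom_disj {w r : Fm V} (hw : PAtom R w) (hr : r ∈ R) {b : D V} (hb : b ≠ 0)
    (hbw : b ∈ LinearMap.range w) (hbr : b ∈ LinearMap.range r) :
    ∀ c ∈ LinearMap.range (r + w), c ∈ LinearMap.range w → c = 0 := by
  rintro _ ⟨q, rfl⟩ hq
  have h1 : r q ∈ LinearMap.range w := by
    have h2 : (r + w) q + w q ∈ LinearMap.range w := Submodule.add_mem _ hq ⟨q, rfl⟩
    rwa [LinearMap.add_apply, add_add_self'] at h2
  rw [LinearMap.add_apply, agree hw hr hb hbw hbr q h1, add_self']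

theorem range_add_le {w r : Fm V} (h : LinearMap.range w ≤ LinearMap.range r) :
    LinearMap.range (r + w) ≤ LinearMap.range r := by
  rintro _ ⟨q, rfl⟩
  rw [LinearMap.add_apply]
  exact Submodule.add_mem _ ⟨q, rfl⟩ (h ⟨q, rfl⟩)

theorem PAtom.nz {w : Fm V} (hw : PAtom R w) : ∃ b ∈ LinearMap.range w, b ≠ 0 := by
  obtain ⟨x, hx⟩ := exists_val hw.2.1
  exact ⟨w x, ⟨x, rfl⟩, hx⟩

include hA in
/-- distinct perfect atoms have disjoint ranges -/
theorem atom_eq {w w' : Fm V} (hw : PAtom R w) (hw' : PAtom R w') {b : D V} (hb : b ≠ 0)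
    (hbw : b ∈ LinearMap.range w) (hbw' : b ∈ LinearMap.range w') : w = w' := by
  have h1 := dom_range hA hw' hw.1 hb hbw' hbw
  have h2 := dom_range hA hw hw'.1 hb hbw hbw'
  have h3 := dom_disj hw hw'.1 hb hbw hbw'
  have h4 : w' + w = 0 := by
    apply LinearMap.ext
    intro q
    apply h3 _ ⟨q, rfl⟩
    exact h1 (range_add_le h2 ⟨q, rfl⟩)
  exact (eq_of_add h4).symm

end basic

end Pool.Agent.H34B
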