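import Pool.Agent.H34B.Grp2

/-!
The group-theoretic form of Theorems C and D of note 3133, part 3.
-/

set_option linter.unusedSectionVars false
set_option linter.unusedVariables false

namespace Pool.Agent.H34B

open QS Pool.Agent.ESL
open Pool.Agent.Helper58.PLine (QData)
open scoped BigOperators

attribute [local instance] J1X.mdl

section lin
variable {V : Type} [AddCommGroup V] [Module (ZMod 2) V] {k : ℕ} {w : Fin k → ESL.Fm V}

/-- independence from simultaneous solvability -/
theorem indep_of_solve (hA : ∀ i x, w i x x = 0) (hs : ∀ x : Fin k → V, ∃ y, ∀ i, w i y = w i (x i))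
    (x : Fin k → V) (h : ∑ i, w i (x i) = 0) (j : Fin k) : w j (x j) = 0 := by
  classical
  apply LinearMap.ext
  intro v
  obtain ⟨y, hy⟩ := hs (Function.update 0 j v)
  have h1 : ∀ i, w i (x i) y = if i = j then w j (x j) v else 0 := by
    intro i
    rw [symm_of_alt (hA i), hy i]
    by_cases hij : i = j
    · subst hij
      rw [Function.update_self, if_pos rfl, symm_of_alt (hA i)]
    · rw [Function.update_of_ne hij, if_neg hij, Pi.zero_apply, map_zero, LinearMap.zero_apply]
  have h2 := LinearMap.congr_fun h y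
  rw [LinearMap.sum_apply, Finset.sum_congr rfl (fun i _ => h1 i), Finset.sum_ite_eq' Finset.univ j,
    if_pos (Finset.mem_univ j)] at h2
  exact h2

/-- functionals vanishing on the common kernel -/
theorem span_rep {x : V} {β : ESL.D V} (h : ∀ v, (∀ i, w i x v = 0) → β v = 0) :
    ∃ c : Fin k → ZMod 2, β = ∑ i, w i (c i • x) := by
  have h1 : β ∈ Submodule.span (ZMod 2) (Set.range fun i => w i x) := by
    apply mem_span_of_iInf_ker_le_ker
    intro v hv
    rw [LinearMap.mem_ker]
    apply h
    intro i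
    exact (Submodule.mem_iInf _).1 hv i
  obtain ⟨c, hc⟩ := (Submodule.mem_span_range_iff_exists_fun (ZMod 2)).1 h1
  exact ⟨c, by rw [← hc]; exact Finset.sum_congr rfl fun i _ => (map_smul _ _ _).symm⟩

theorem rep_uniq (hA : ∀ i x, w i x x = 0) (hs : ∀ x : Fin k → V, ∃ y, ∀ i, w i y = w i (x i))
    {x y : V} {c d : Fin k → ZMod 2} (h : ∑ i, w i (c i • x) = ∑ i, w i (d i • y)) (j : Fin k) :
    w j (c j • x) = w j (d j • y) := by
  have h1 : ∑ i, w i (c i • x + d i • y) = 0 := by
    rw [Finset.sum_congr rfl (fun i _ => map_add (w i) _ _), Finset.sum_add_distrib, h]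
    exact ZModModule.add_self _
  have h2 := indep_of_solve hA hs (fun i => c i • x + d i • y) h1 j
  rw [map_add] at h2
  exact eq_of_add h2

theorem smul_val {x y : V} {c : ZMod 2} {f : ESL.D V} {g : ESL.Fm V} (h : g (c • x) = f) (h0 : f ≠ 0) :
    g x = f := by
  rcases zm c with rfl | rfl
  · rw [zero_smul, map_zero] at h
    exact absurd h.symm h0
  · rwa [one_smul] at h

end lin

variable (S : QStruct)

/-- what a product decomposition gives -/
theorem unpack (hneg : S.neg = 1) (h : LocalProd S) : ∃ (k : ℕ) (w : Fin k → ESL.Fm (Additive S.G)),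
    (∀ i x, w i x x = 0) ∧ (∀ x : Fin k → Additive S.G, ∃ y, ∀ i, w i y = w i (x i)) ∧
    (∀ x y : Additive S.G, S.q x.toMul y.toMul = S.zero ↔ ∀ i, w i x y = 0) := by
  obtain ⟨k, ω, h1, h2, h3, h4⟩ := h
  have h0 : ∀ x y : Additive S.G, S.q x.toMul y.toMul = S.zero ↔
      ∀ i, J1X.mk S (ω i) (h1 i) (h2 i) x y = 0 := by
    intro x y
    have e := h3 x.toMul y.toMul x.toMul 1
    rw [S.q_one] at e
    rw [e]
    apply forall_congr'
    intro i
    have e2 : ω i x.toMul 1 = 0 := map_zero (J1X.mk S (ω i) (h1 i) (h2 i) x)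
    rw [e2]
    rfl
  refine ⟨k, fun i => J1X.mk S (ω i) (h1 i) (h2 i), ?_, ?_, h0⟩
  · intro i x
    exact (h0 x x).1 (J1X.q_self S hneg _) i
  · intro x
    obtain ⟨y, hy⟩ := h4 (fun i => (x i).toMul)
    refine ⟨Additive.ofMul y, fun i => ?_⟩
    apply LinearMap.ext
    intro v
    exact hy i v.toMul

/-- product decompositions are group valued -/
theorem gv_of_localProd (hneg : S.neg = 1) (h : LocalProd S) : GroupValued S := by
  classical
  obtain ⟨k, ω, h1, h2, h3, h4⟩ := h
  have hs : ∀ β : S.Q, ∃ p : S.G × S.G, S.q p.1 p.2 = β := by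
    intro β
    obtain ⟨a, b, e⟩ := S.surj β
    exact ⟨(a, b), e⟩
  choose p hp using hs
  have hval : ∀ a b i, ω i (p (S.q a b)).1 (p (S.q a b)).2 = ω i a b := by
    intro a b i
    exact (h3 _ _ _ _).1 (hp (S.q a b)) i
  refine ⟨Fin k → ZMod 2, inferInstance, fun β i => ω i (p β).1 (p β).2, ?_, ?_⟩
  · intro β γ e
    rw [← hp β, ← hp γ]
    rw [h3]
    intro i
    exact congrFun e i
  · intro a b c
    funext i
    show ω i (p (S.q a (b * c))).1 (p (S.q a (b * c))).2 =
      ω i (p (S.q a b)).1 (p (S.q a b)).2 + ω i (p (S.q a c)).1 (p (S.q a c)).2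
    rw [hval, hval, hval, h2]

/-- an index two subgroup as a kernel -/
theorem exists_functional (H : Subgroup S.G) (hH : H.index = 2) :
    ∃ β : ESL.D (Additive S.G), β ≠ 0 ∧ kerG S β = H := by
  obtain ⟨g, hg⟩ : ∃ g, g ∉ H := by
    by_contra hc
    push Not at hc
    have : H = ⊤ := (Subgroup.eq_top_iff' H).2 hc
    rw [this, Subgroup.index_top] at hH
    omega
  obtain ⟨β, hβ, h1⟩ := exists_sep (W := toSub S H) (x := Additive.ofMul g) hg
  refine ⟨β, ?_, ?_⟩
  · rintro rfl
    exact zero_ne_one h1
  · ext b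
    rw [mem_kerG]
    constructor
    · intro hb
      by_contra hbH
      have h2 : b * g ∈ H := by
        rw [Subgroup.mul_mem_iff_of_index_two hH]
        exact ⟨fun h => absurd h hbH, fun h => absurd h hg⟩
      have h3 : β (Additive.ofMul b + Additive.ofMul g) = 0 := hβ _ h2
      rw [map_add, hb, h1, zero_add] at h3
      exact one_ne_zero h3
    · intro hb
      exact hβ _ hb

/-- product decompositions have no sharp subgroups -/
theorem not_sharp_of_localProd (hneg : S.neg = 1) (h : LocalProd S) (H : Subgroup S.G) : ¬ Sharp S H := by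
  obtain ⟨k, w, hA, hs, h0⟩ := unpack S hneg h
  rintro ⟨hi, ⟨x0, hx0⟩, hle⟩
  obtain ⟨β, hβ, rfl⟩ := exists_functional S H hi
  have hrep : ∀ x ∈ PSet S (kerG S β), ∃ c : Fin k → ZMod 2, β = ∑ i, w i (c i • Additive.ofMul x) := by
    intro x hx
    apply span_rep
    intro v hv
    exact hx v.toMul ((h0 (Additive.ofMul x) v).2 hv)
  obtain ⟨c, hc⟩ := hrep x0 hx0
  obtain ⟨j, hj⟩ : ∃ j, w j (c j • Additive.ofMul x0) ≠ 0 := by
    by_contra hcon
    push Not at hcon
    exact hβ (hc.trans (Finset.sum_eq_zero fun i _ => hcon i))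
  have hall : ∀ x ∈ PSet S (kerG S β), w j (Additive.ofMul x) = w j (c j • Additive.ofMul x0) := by
    intro x hx
    obtain ⟨d, hd⟩ := hrep x hx
    have h1 := rep_uniq hA hs (hc.symm.trans hd) j
    exact smul_val (y := Additive.ofMul x) (c := d j) h1.symm hj
  have hker : kerG S β ≤ kerG S (0 : ESL.D (Additive S.G)) := fun _ _ => rfl
  -- all elements of the kernel of `β` are killed by `w j`
  have hk : ∀ g ∈ kerG S β, w j (Additive.ofMul g) = 0 := by
    intro g hg
    have h1 := hle hg
    refine Subgroup.closure_induction (p := fun g _ => w j (Additive.ofMul g) = 0) ?_ ?_ ?_ ?_ h1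
    · rintro _ ⟨x, hx, y, hy, rfl⟩
      show w j (Additive.ofMul x + Additive.ofMul y) = 0
      rw [map_add, hall x hx, hall y hy]
      exact add_self' _
    · exact map_zero (w j)
    · intro a b _ _ ha hb
      show w j (Additive.ofMul a + Additive.ofMul b) = 0
      rw [map_add, ha, hb, add_zero]
    · intro a _ ha
      show w j (-Additive.ofMul a) = 0
      rw [map_neg, ha, neg_zero]
  apply hj
  -- `w j = 0`
  have hz : w j = 0 := by
    apply LinearMap.ext
    intro a
    apply LinearMap.ext
    intro b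
    show w j a b = 0
    by_cases ha : β a = 0
    · have h5 : w j a = 0 := hk a.toMul ha
      rw [h5]; rfl
    · by_cases hb : β b = 0
      · have h5 : w j b = 0 := hk b.toMul hb
        rw [symm_of_alt (hA j), h5]; rfl
      · have h1 : β (a + b) = 0 := by
          rw [map_add, zm_ne ha, zm_ne hb]; decide
        have h2 : w j (a + b) = 0 := hk (a + b).toMul h1
        rw [map_add] at h2
        have h3 : w j a = w j b := eq_of_add h2
        rw [h3]
        exact hA j b
  rw [hz]; rfl

/-- product decompositions satisfy the triple law -/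
theorem triple_of_localProd [Finite S.G] (hneg : S.neg = 1) (h : LocalProd S) : Triple S := by
  have hf : Finite (Additive S.G) := (inferInstance : Finite S.G)
  obtain ⟨k, w, hA, hs, h0⟩ := unpack S hneg h
  intro a b c y hy
  let Va : S.G → Submodule (ZMod 2) (Additive S.G) := fun a => LinearMap.ker (LinearMap.pi fun i => w i (Additive.ofMul a))
  have hVa : ∀ a v, v ∈ Va a ↔ S.q a v.toMul = S.zero := by
    intro a v
    rw [show S.q a v.toMul = S.q (Additive.ofMul a).toMul v.toMul from rfl, h0]
    constructor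
    · intro hv i
      exact congrFun hv i
    · intro hv
      exact funext hv
  have hmem : Additive.ofMul y ∈ Va a ⊔ Va b ⊔ Va c := by
    by_contra hn
    obtain ⟨β, hβ, h1⟩ := exists_sep hn
    have hrep : ∀ x, Va x ≤ Va a ⊔ Va b ⊔ Va c →
        ∃ d : Fin k → ZMod 2, β = ∑ i, w i (d i • Additive.ofMul x) := by
      intro x hx
      apply span_rep
      intro v hv
      apply hβ
      apply hx
      rw [hVa, show S.q x v.toMul = S.q (Additive.ofMul x).toMul v.toMul from rfl, h0]
      exact hv
    obtain ⟨da, ha⟩ := hrep a (le_sup_left.trans le_sup_left)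
    obtain ⟨db, hb⟩ := hrep b (le_sup_right.trans le_sup_left)
    obtain ⟨dc, hc⟩ := hrep c le_sup_right
    have h2 : β (Additive.ofMul y) = 0 := by
      rw [ha, LinearMap.sum_apply]
      apply Finset.sum_eq_zero
      intro j _
      by_cases hz : w j (da j • Additive.ofMul a) = 0
      · rw [hz]; rfl
      · have e1 := rep_uniq hA hs (ha.symm.trans hb) j
        have e2 := rep_uniq hA hs (ha.symm.trans hc) j
        have f1 : w j (Additive.ofMul a) = w j (da j • Additive.ofMul a) :=
          smul_val (y := Additive.ofMul a) (c := da j) rfl hz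
        have f2 : w j (Additive.ofMul b) = w j (da j • Additive.ofMul a) :=
          smul_val (y := Additive.ofMul a) (c := db j) e1.symm hz
        have f3 : w j (Additive.ofMul c) = w j (da j • Additive.ofMul a) :=
          smul_val (y := Additive.ofMul a) (c := dc j) e2.symm hz
        have g1 : w j (Additive.ofMul a + Additive.ofMul b + Additive.ofMul c) (Additive.ofMul y) = 0 :=
          (h0 (Additive.ofMul (a * b * c)) (Additive.ofMul y)).1 hy j
        rw [map_add, map_add, f1, f2, f3, add_self', zero_add] at g1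
        exact g1
    rw [h2] at h1
    exact zero_ne_one h1
  obtain ⟨uv, huv, t, ht, he⟩ := Submodule.mem_sup.1 hmem
  obtain ⟨u, hu, v, hv, rfl⟩ := Submodule.mem_sup.1 huv
  exact ⟨u.toMul, v.toMul, t.toMul, (hVa _ _).1 hu, (hVa _ _).1 hv, (hVa _ _).1 ht, he.symm⟩

/-- the triple law excludes sharp subgroups -/
theorem not_sharp_of_triple (hneg : S.neg = 1) (h : Triple S) (H : Subgroup S.G) : ¬ Sharp S H := by
  rintro ⟨hi, ⟨x0, hx0⟩, hle⟩
  have htr : ∀ x ∈ PSet S H, ∀ y ∈ PSet S H, ∀ z ∈ PSet S H, x * y * z ∈ PSet S H := by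
    intro x hx y hy z hz t ht
    obtain ⟨u, v, s, h1, h2, h3, rfl⟩ := h x y z t ht
    exact H.mul_mem (H.mul_mem (hx u h1) (hy v h2)) (hz s h3)
  let K : Subgroup S.G :=
    { carrier := {g | g * x0 ∈ PSet S H}
      mul_mem' := by
        intro a b ha hb
        have h1 := htr (a * x0) ha x0 hx0 (b * x0) hb
        have e : a * x0 * x0 * (b * x0) = a * b * x0 := by
          rw [mul_assoc a x0 x0, S.exp_two, mul_one, mul_assoc]
        rw [e] at h1
        exact h1
      one_mem' := by
        show 1 * x0 ∈ PSet S H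
        rw [one_mul]; exact hx0
      inv_mem' := by
        intro a ha
        have e : a⁻¹ = a := inv_eq_of_mul_eq_one_left (S.exp_two a)
        show a⁻¹ * x0 ∈ PSet S H
        rw [e]; exact ha }
  have h1 : H ≤ K := by
    refine hle.trans ((Subgroup.closure_le K).2 ?_)
    rintro _ ⟨x, hx, y, hy, rfl⟩
    exact htr x hx y hy x0 hx0
  have h2 : x0 ∈ H := hx0 x0 (by
    have := S.qs1 x0
    rwa [hneg, one_mul] at this)
  have h3 : x0 * x0 ∈ PSet S H := h1 h2
  rw [S.exp_two] at h3
  have h4 : H = ⊤ := (Subgroup.eq_top_iff' H).2 fun y => h3 y (by rw [S.qs2, S.q_one])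
  rw [h4, Subgroup.index_top] at hi
  omega

/-- **the theorem** -/
theorem main (hf : Finite S.G) (hneg : S.neg = 1) :
    (LocalProd S ↔ GroupValued S ∧ ∀ H : Subgroup S.G, ¬ Sharp S H) ∧
    (LocalProd S ↔ GroupValued S ∧ Triple S) ∧ (LocalProd S → ElemType S) := by
  have h1 : GroupValued S → (∀ H : Subgroup S.G, ¬ Sharp S H) → LocalProd S ∧ ElemType S := by
    intro hg hH
    have hE := emb_of_gv S hneg hg
    have hN := nd_of_not_sharp S hneg hH
    exact ⟨localProd_of_nd S hneg hE hN, elemType_of_nd S hneg hE hN⟩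
  refine ⟨⟨fun h => ⟨gv_of_localProd S hneg h, not_sharp_of_localProd S hneg h⟩,
    fun h => (h1 h.1 h.2).1⟩, ⟨fun h => ⟨gv_of_localProd S hneg h, triple_of_localProd S hneg h⟩,
    fun h => (h1 h.1 (not_sharp_of_triple S hneg h.2)).1⟩, ?_⟩
  intro h
  exact (h1 (gv_of_localProd S hneg h) (not_sharp_of_localProd S hneg h)).2

end Pool.Agent.H34B
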