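import Pool.Agent.H34B.Three

/-!
A linked form space in which every functional dominates a perfect atom is strongly linked.
-/

set_option linter.unusedSectionVars false
set_option linter.unusedVariables false

namespace Pool.Agent.H34B

open Pool.Agent.ESL
open scoped BigOperators

variable {V : Type} [AddCommGroup V] [Module (ZMod 2) V] [Finite V] {R : FS V}

section
variable (hA : IsAlt R) (hL : Linked R) (hD : Dom R)

include hA hL hD in
theorem ind_all : ∀ n, Ind R n := by
  classical
  intro n
  induction n with
  | zero => exact (ind_two hA).mono (Nat.zero_le _)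
  | succ n ih =>
    intro T hT hTA β hβ hs w hw
    by_contra hcon
    -- all terms may be assumed nonzero
    have hnz : ∀ w ∈ T, β w ≠ 0 := by
      intro a ha h0
      have h1 := ih (T.erase a) (by
        have := Finset.card_erase_of_mem ha
        omega) (fun w hw => hTA w (Finset.mem_of_mem_erase hw)) β
        (fun w hw => hβ w (Finset.mem_of_mem_erase hw)) (by
          rw [← Finset.add_sum_erase T β ha, h0, zero_add] at hs
          exact hs)
      apply hcon
      by_cases hwa : w = a
      · rw [hwa, h0]
      · exact h1 w (Finset.mem_erase.2 ⟨hwa, hw⟩)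
    -- a second atom
    have h1 : ∃ b ∈ T, b ≠ w := by
      by_contra hc
      push Not at hc
      have : T = {w} := Finset.eq_singleton_iff_unique_mem.2 ⟨hw, hc⟩
      rw [this, Finset.sum_singleton] at hs
      exact hcon hs
    obtain ⟨b, hb, hbw⟩ := h1
    have hbT : b ∈ T.erase w := Finset.mem_erase.2 ⟨hbw, hb⟩
    -- the remaining atoms
    let T' := (T.erase w).erase b
    have hT'c : T'.card + 2 = T.card := by
      have h1 := Finset.card_erase_add_one hw
      have h2 := Finset.card_erase_add_one hbT
      show ((T.erase w).erase b).card + 2 = T.card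
      omega
    have hT'sub : ∀ a ∈ T', a ∈ T ∧ a ≠ w ∧ a ≠ b := by
      intro a ha
      have h1 := Finset.mem_erase.1 ha
      have h2 := Finset.mem_erase.1 h1.2
      exact ⟨h2.2, h2.1, h1.1⟩
    have hsum : β w + β b = ∑ a ∈ T', β a := by
      have h2 : β w + (β b + ∑ a ∈ T', β a) = 0 := by
        rw [← hs, ← Finset.add_sum_erase T β hw, ← Finset.add_sum_erase _ β hbT]
      rw [← add_assoc] at h2
      exact eq_of_add h2
    have hwA := hTA w hw
    have hbA := hTA b hb
    -- the sum of the remaining atoms
    have hT'n : T'.card ≤ n := by omega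
    have hrR : ∑ a ∈ T', a ∈ R := sum_mem_R (fun a ha => hTA a (hT'sub a ha).1)
    have hmem : β w + β b ∈ LinearMap.range (∑ a ∈ T', a) := by
      rw [hsum]
      exact sum_val_mem hA ih hT'n (fun a ha => hTA a (hT'sub a ha).1)
        (fun a ha => hβ a (hT'sub a ha).1)
    have hne0 : β w + β b ≠ 0 := by
      intro h0
      have h3 : β w = β b := eq_of_add h0
      exact hbw (atom_eq hA hbA hwA (hnz w hw) (h3 ▸ hβ b hb) (hβ w hw))
    -- an element over `β w + β b`
    obtain ⟨x, hx⟩ : β w + β b ∈ LinearMap.range (w + b) := by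
      rw [range_pair hA hwA hbA hbw.symm]
      exact Submodule.add_mem_sup (hβ w hw) (hβ b hb)
    have hsep : ∀ y z : D V, y ∈ LinearMap.range w → z ∈ LinearMap.range b → y + z = β w + β b →
        y = β w ∧ z = β b := by
      intro y z hy hz hyz
      have h1 : y + β w = z + β b := by
        have := congrArg (fun t => t + (z + β w)) hyz
        calc y + β w = (y + z) + (z + β w) := by
              rw [add_assoc y z, add_add_self]
          _ = (β w + β b) + (z + β w) := this
          _ = z + β b + (β w + β w) := by abel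
          _ = z + β b := by rw [add_self', add_zero]
      have h2 : y + β w = 0 := by
        by_contra h0
        exact hbw (atom_eq hA hbA hwA h0 (h1 ▸ Submodule.add_mem _ hz (hβ b hb))
          (Submodule.add_mem _ hy (hβ w hw)))
      have h3 : z + β b = 0 := by rw [← h1, h2]
      exact ⟨eq_of_add h2, eq_of_add h3⟩
    have hxw := hsep (w x) (b x) ⟨x, rfl⟩ ⟨x, rfl⟩ hx
    obtain ⟨v, hv, hdom⟩ := hD (β w + β b) hne0 ⟨x, w + b, R.add_mem hwA.1 hbA.1, hx⟩
    have hvle : LinearMap.range v ≤ LinearMap.range w ⊔ LinearMap.range b := by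
      rw [← range_pair hA hwA hbA hbw.symm]
      exact hdom _ (R.add_mem hwA.1 hbA.1) ⟨x, hx⟩
    -- `v = w` or `v = b`
    have hvwb : v = w ∨ v = b := by
      by_contra hc
      push Not at hc
      exact no_triple hA hL hD hwA hbA hv hbw.symm (Ne.symm hc.1) (Ne.symm hc.2) hvle
    -- a summand inside the range of the others gives a shorter dependency
    have hfin : ∀ a ∈ T, a ∉ T' → β a ∈ LinearMap.range (∑ a ∈ T', a) → False := by
      intro a ha haT' hmem
      obtain ⟨γ, hγ, hγs⟩ := mem_range_sum hmem
      let δ : Fm V → D V := fun t => if t = a then β a else γ t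
      have h5 := ih (insert a T') (by rw [Finset.card_insert_of_notMem haT']; omega)
        (by
          intro t ht
          rcases Finset.mem_insert.1 ht with rfl | ht
          · exact hTA _ ha
          · exact hTA t (hT'sub t ht).1) δ
        (by
          intro t ht
          rcases Finset.mem_insert.1 ht with rfl | ht
          · show (if t = t then β t else γ t) ∈ _
            rw [if_pos rfl]; exact hβ t ha
          · have : t ≠ a := fun he => haT' (he ▸ ht)
            show (if t = a then β a else γ t) ∈ _
            rw [if_neg this]; exact hγ t ht)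
        (by
          rw [Finset.sum_insert haT']
          have e1 : δ a = β a := if_pos rfl
          have e2 : ∑ t ∈ T', δ t = ∑ t ∈ T', γ t := by
            apply Finset.sum_congr rfl
            intro t ht
            exact if_neg (fun he : t = a => haT' (he ▸ ht))
          rw [e1, e2, ← hγs, add_self'])
      have h6 := h5 a (Finset.mem_insert_self _ _)
      have e1 : δ a = β a := if_pos rfl
      exact hnz a ha (e1 ▸ h6)
    rcases hvwb with rfl | rfl
    · -- `v = w`
      refine hfin v hw ?_ ?_
      · intro h; exact (hT'sub v h).2.1 rfl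
      · exact hdom _ hrR hmem (hβ v hw)
    · refine hfin v hb ?_ ?_
      · intro h; exact (hT'sub v h).2.2 rfl
      · exact hdom _ hrR hmem (hβ v hb)

include hA hL hD in
/-- **Theorem D**: strong linkage -/
theorem sl_of_dom : SL R := by
  classical
  intro U b hb
  have : Fintype (Fm V) := Fintype.ofFinite _
  let At : Type := {w : Fm V // PAtom R w}
  have : Fintype At := Fintype.ofFinite _
  let Φ : ((w : At) → LinearMap.range (w : Fm V)) →ₗ[ZMod 2] D V :=
    ∑ w : At, (LinearMap.range (w : Fm V)).subtype ∘ₗ LinearMap.proj w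
  have hΦ : ∀ f, Φ f = ∑ w : At, (f w : D V) := by
    intro f
    simp [Φ, LinearMap.sum_apply]
  have hinj : Function.Injective Φ := by
    rw [← LinearMap.ker_eq_bot, LinearMap.ker_eq_bot']
    intro f hf
    rw [hΦ] at hf
    let T : Finset (Fm V) := Finset.univ.map ⟨fun w : At => (w : Fm V), Subtype.val_injective⟩
    let β : Fm V → D V := fun w => if h : PAtom R w then (f ⟨w, h⟩ : D V) else 0
    have hTA : ∀ w ∈ T, PAtom R w := by
      intro w hw
      obtain ⟨a, -, rfl⟩ := Finset.mem_map.1 hw
      exact a.2
    have hβ : ∀ w : At, β w = f w := fun w => dif_pos w.2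
    have h1 := ind_all hA hL hD T.card T le_rfl hTA β (by
      intro w hw
      have h := hTA w hw
      have := hβ ⟨w, h⟩
      show β w ∈ _
      rw [show β w = f ⟨w, h⟩ from this]
      exact (f ⟨w, h⟩).2) (by
      rw [Finset.sum_map, ← hf]
      exact Finset.sum_congr rfl fun w _ => hβ w)
    funext w
    apply Subtype.ext
    rw [← hβ w]
    exact h1 w (Finset.mem_map.2 ⟨w, Finset.mem_univ _, rfl⟩)
  obtain ⟨Ψ, hΨ⟩ := Φ.exists_leftInverse_of_injective (LinearMap.ker_eq_bot.2 hinj)
  have hΨ' : ∀ f, Ψ (Φ f) = f := fun f => LinearMap.congr_fun hΨ f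
  -- the value of `b`
  have hval : ∀ u : U, ∃ T : Finset At, b u = Φ (fun w => if w ∈ T then ⟨(w : Fm V) u, ⟨u, rfl⟩⟩ else 0) := by
    intro u
    obtain ⟨r, hr, hru⟩ := hb u
    obtain ⟨T, hT, hTs⟩ := decomp' hA hD hr
    refine ⟨Finset.univ.filter (fun w : At => (w : Fm V) ∈ T), ?_⟩
    rw [hΦ, ← hru, hTs, LinearMap.sum_apply]
    have e1 : ∀ w : At, (((if w ∈ Finset.univ.filter (fun w : At => (w : Fm V) ∈ T) then
        (⟨(w : Fm V) u, ⟨u, rfl⟩⟩ : LinearMap.range (w : Fm V)) else 0) : LinearMap.range (w : Fm V)) : D V) =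
        if (w : Fm V) ∈ T then (w : Fm V) u else 0 := by
      intro w
      by_cases h : (w : Fm V) ∈ T
      · rw [if_pos (by simp [h]), if_pos h]
      · rw [if_neg (by simp [h]), if_neg h]; rfl
    rw [Finset.sum_congr rfl (fun w _ => e1 w)]
    rw [← Finset.sum_filter]
    symm
    apply Finset.sum_bij (fun (w : At) _ => (w : Fm V))
    · intro w hw
      exact (Finset.mem_filter.1 hw).2
    · intro w _ w' _ h
      exact Subtype.ext h
    · intro w hw
      exact ⟨⟨w, (hT w hw).1⟩, Finset.mem_filter.2 ⟨Finset.mem_univ _, hw⟩, rfl⟩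
    · intro w hw
      rfl
  have hcoord : ∀ (u : U) (w : At), (Ψ (b u) w : D V) = 0 ∨ (Ψ (b u) w : D V) = (w : Fm V) u := by
    intro u w
    obtain ⟨T, hT⟩ := hval u
    rw [hT, hΨ']
    by_cases h : w ∈ T
    · right; rw [if_pos h]
    · left; rw [if_neg h]; rfl
  have hback : ∀ u : U, b u = ∑ w : At, (Ψ (b u) w : D V) := by
    intro u
    obtain ⟨T, hT⟩ := hval u
    have h1 := hΨ' (fun w => if w ∈ T then ⟨(w : Fm V) u, ⟨u, rfl⟩⟩ else 0)
    rw [← hT] at h1
    rw [h1, hT, hΦ]
  -- a dichotomy for each atom
  have hdich : ∀ w : At, (∀ u : U, (Ψ (b u) w : D V) = 0) ∨ ∀ u : U, (Ψ (b u) w : D V) = (w : Fm V) u := by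
    intro w
    by_contra hc
    push Not at hc
    obtain ⟨⟨u, hu⟩, v, hv⟩ := hc
    have hu' := (hcoord u w).resolve_left hu
    have hv' := (hcoord v w).resolve_right hv
    have hadd : (Ψ (b (u + v)) w : D V) = (w : Fm V) u := by
      rw [map_add, map_add, Pi.add_apply, Submodule.coe_add, hu', hv', add_zero]
    rcases hcoord (u + v) w with h | h
    · rw [hadd] at h
      exact hu (hu'.trans h)
    · rw [hadd] at h
      apply hv
      rw [hv']
      have h2 : (w : Fm V) ((u : V) + (v : V)) = (w : Fm V) u := h.symm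
      rw [map_add] at h2
      have := congrArg (fun t => (w : Fm V) u + t) h2
      simpa [add_add_self, add_self'] using this.symm
  refine ⟨∑ w ∈ Finset.univ.filter (fun w : At => ∀ u : U, (Ψ (b u) w : D V) = (w : Fm V) u), (w : Fm V),
    Submodule.sum_mem _ fun w _ => w.2.1, ?_⟩
  intro u
  rw [LinearMap.sum_apply, hback u, Finset.sum_filter]
  apply Finset.sum_congr rfl
  intro w _
  by_cases h : ∀ u : U, (Ψ (b u) w : D V) = (w : Fm V) u
  · rw [if_pos h, h u]
  · rw [if_neg h, (hdich w).resolve_right h u]

end

end Pool.Agent.H34B
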