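import Pool.Agent.H34B.Wrap

/-!
The group-theoretic form of Theorems C and D of note 3133.
-/

set_option linter.unusedSectionVars false
set_option linter.unusedVariables false

namespace Pool.Agent.H34B

open QS Pool.Agent.ESL
open Pool.Agent.Helper58.PLine (QData)
open scoped BigOperators

attribute [local instance] J1X.mdl

/-- `Q` embeds into an abelian group in such a way that `q` becomes biadditive -/
def GroupValued (S : QStruct) : Prop :=
  ∃ (B : Type) (_ : AddCommGroup B) (i : S.Q → B), Function.Injective i ∧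
    ∀ a b c, i (S.q a (b * c)) = i (S.q a b) + i (S.q a c)

/-- the elements `x` with `{y | q (x, y) = 0} ⊆ H` -/
def PSet (S : QStruct) (H : Subgroup S.G) : Set S.G := {x | ∀ y, S.q x y = S.zero → y ∈ H}

/-- sharp subgroups -/
def Sharp (S : QStruct) (H : Subgroup S.G) : Prop :=
  H.index = 2 ∧ (PSet S H).Nonempty ∧
    H ≤ Subgroup.closure {z | ∃ x ∈ PSet S H, ∃ y ∈ PSet S H, x * y = z}

/-- products of structures with at most two quaternions -/
def LocalProd (S : QStruct) : Prop :=
  ∃ (k : ℕ) (ω : Fin k → S.G → S.G → ZMod 2),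
    (∀ i a b c, ω i (a * b) c = ω i a c + ω i b c) ∧
    (∀ i a b c, ω i a (b * c) = ω i a b + ω i a c) ∧
    (∀ a b c d, S.q a b = S.q c d ↔ ∀ i, ω i a b = ω i c d) ∧
    ∀ x : Fin k → S.G, ∃ y, ∀ i v, ω i y v = ω i (x i) v

/-- triple law -/
def Triple (S : QStruct) : Prop :=
  ∀ a b c y, S.q (a * b * c) y = S.zero →
    ∃ u v w, S.q a u = S.zero ∧ S.q b v = S.zero ∧ S.q c w = S.zero ∧ y = u * v * w

variable (S : QStruct)

/-- forms take equal values on equal quaternions -/
theorem form_eq {k : ESL.Fm (Additive S.G)} (hk : k ∈ J1X.RR S) (hneg : S.neg = 1) {a b c d : S.G}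
    (h : S.q a b = S.q c d) :
    k (Additive.ofMul a) (Additive.ofMul b) = k (Additive.ofMul c) (Additive.ofMul d) := by
  obtain ⟨x, h1, h2⟩ := S.qs4 a b c d h
  have e1 : k (Additive.ofMul a) (Additive.ofMul b + Additive.ofMul x) = 0 :=
    hk _ _ ((S.qs3 a b x).1 h1)
  have e2 : k (Additive.ofMul c) (Additive.ofMul d + Additive.ofMul x) = 0 :=
    hk _ _ ((S.qs3 c d x).1 h2)
  have h3 : S.q x a = S.q x c := by rw [S.qs2 x a, S.qs2 x c, ← h1, h, h2]
  have e3 : k (Additive.ofMul x) (Additive.ofMul a + Additive.ofMul c) = 0 :=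
    hk _ _ ((S.qs3 x a c).1 h3)
  have hA := J1X.isAlt S hneg
  rw [map_add] at e1 e2 e3
  have f1 := CharTwo.add_eq_zero.1 e1
  have f2 := CharTwo.add_eq_zero.1 e2
  have f3 := CharTwo.add_eq_zero.1 e3
  rw [f1, f2, hA.symm hk, f3, hA.symm hk]

/-- group valued structures are separated by their forms -/
theorem emb_of_gv (hneg : S.neg = 1) (h : GroupValued S) : ETSC.Emb (dt S) := by
  classical
  obtain ⟨B, hB, i, hi, hadd⟩ := h
  have h0 : i S.zero = 0 := by
    have h1 := hadd 1 1 1
    rw [mul_one, S.q_one] at h1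
    exact left_eq_add.1 h1
  have hsw : ∀ a b c, i (S.q (a * b) c) = i (S.q a c) + i (S.q b c) := by
    intro a b c
    rw [S.qs2, hadd, S.qs2 c a, S.qs2 c b]
  have htwo : ∀ a b, i (S.q a b) + i (S.q a b) = 0 := by
    intro a b
    rw [← hadd, S.exp_two, S.q_one, h0]
  -- the subgroup of elements of exponent two
  let B2 : AddSubgroup B :=
    { carrier := {b | b + b = 0}
      add_mem' := by
        intro a b ha hb
        show a + b + (a + b) = 0
        have ha' : a + a = 0 := ha
        have hb' : b + b = 0 := hb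
        rw [add_add_add_comm, ha', hb', add_zero]
      zero_mem' := by show (0 : B) + 0 = 0; rw [add_zero]
      neg_mem' := by
        intro a ha
        have ha' : a + a = 0 := ha
        show -a + -a = 0
        rw [← neg_add, ha', neg_zero] }
  letI : Module (ZMod 2) B2 := AddCommGroup.zmodModule (n := 2) (fun x => by
    rw [two_nsmul]; exact Subtype.ext x.2)
  let j : S.G → S.G → B2 := fun a b => ⟨i (S.q a b), htwo a b⟩
  have hj1 : ∀ a b c, j (a * b) c = j a c + j b c := fun a b c => Subtype.ext (hsw a b c)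
  have hj2 : ∀ a b c, j a (b * c) = j a b + j a c := fun a b c => Subtype.ext (hadd a b c)
  intro x v z w hxw
  change S.q x.toMul v.toMul = S.q z.toMul w.toMul
  apply hi
  by_contra hne
  have hne' : j x.toMul v.toMul + j z.toMul w.toMul ≠ 0 := by
    intro he
    apply hne
    have e1 : j x.toMul v.toMul = j z.toMul w.toMul := by
      have e2 : j z.toMul w.toMul + j z.toMul w.toMul = 0 := Subtype.ext (htwo _ _)
      calc j x.toMul v.toMul = j x.toMul v.toMul + (j z.toMul w.toMul + j z.toMul w.toMul) := by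
            rw [e2, add_zero]
        _ = (j x.toMul v.toMul + j z.toMul w.toMul) + j z.toMul w.toMul := by rw [add_assoc]
        _ = _ := by rw [he, zero_add]
    exact congrArg Subtype.val e1
  obtain ⟨f, hf⟩ : ∃ f : B2 →ₗ[ZMod 2] ZMod 2, f (j x.toMul v.toMul + j z.toMul w.toMul) ≠ 0 := by
    by_contra hc
    push Not at hc
    exact hne' ((Module.forall_dual_apply_eq_zero_iff (ZMod 2) _).1 hc)
  have hk := hxw (J1X.mk S (fun a b => f (j a b)) (fun a b c => by rw [hj1, map_add])
    (fun a b c => by rw [hj2, map_add])) (by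
      intro a b hab
      rw [J1X.mk_apply]
      have e : j a.toMul b.toMul = 0 := by
        apply Subtype.ext
        show i (S.q a.toMul b.toMul) = 0
        have hab' : S.q a.toMul b.toMul = S.zero := hab
        rw [hab', h0]
      show f (j a.toMul b.toMul) = 0
      rw [e, map_zero])
  rw [J1X.mk_apply, J1X.mk_apply] at hk
  apply hf
  rw [map_add]
  have hk' : f (j x.toMul v.toMul) = f (j z.toMul w.toMul) := hk
  rw [hk']
  exact CharTwo.add_self_eq_zero _

end Pool.Agent.H34B
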