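import Pool.Agent.H34B.Grp

/-!
The group-theoretic form of Theorems C and D of note 3133, part 2.
-/

set_option linter.unusedSectionVars false
set_option linter.unusedVariables false

namespace Pool.Agent.H34B

open QS Pool.Agent.ESL
open Pool.Agent.Helper58.PLine (QData)
open scoped BigOperators

attribute [local instance] J1X.mdl

variable (S : QStruct)

/-- the submodule of a subgroup -/
def toSub (K : Subgroup S.G) : Submodule (ZMod 2) (Additive S.G) :=
  AddSubgroup.toZModSubmodule 2 (Subgroup.toAddSubgroup K)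

theorem mem_toSub {K : Subgroup S.G} {x : Additive S.G} : x ∈ toSub S K ↔ x.toMul ∈ K := Iff.rfl

/-- the kernel of a functional as a subgroup -/
def kerG (β : ESL.D (Additive S.G)) : Subgroup S.G where
  carrier := {g | β (Additive.ofMul g) = 0}
  mul_mem' := by
    intro a b ha hb
    have ha' : β (Additive.ofMul a) = 0 := ha
    have hb' : β (Additive.ofMul b) = 0 := hb
    show β (Additive.ofMul a + Additive.ofMul b) = 0
    rw [map_add, ha', hb', add_zero]
  one_mem' := map_zero β
  inv_mem' := by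
    intro a ha
    have ha' : β (Additive.ofMul a) = 0 := ha
    show β (-Additive.ofMul a) = 0
    rw [map_neg, ha', neg_zero]

theorem mem_kerG {β : ESL.D (Additive S.G)} {g : S.G} : g ∈ kerG S β ↔ β (Additive.ofMul g) = 0 :=
  Iff.rfl

theorem index_kerG {β : ESL.D (Additive S.G)} (hβ : β ≠ 0) : (kerG S β).index = 2 := by
  obtain ⟨g, hg⟩ : ∃ g : S.G, β (Additive.ofMul g) ≠ 0 := by
    by_contra hc
    push Not at hc
    exact hβ (LinearMap.ext fun x => hc x.toMul)
  rw [Subgroup.index_eq_two_iff]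
  refine ⟨g, fun b => ?_⟩
  have hg1 := zm_ne hg
  rw [mem_kerG, mem_kerG, ofMul_mul, map_add, hg1]
  have : ∀ t : ZMod 2, Xor (t + 1 = 0) (t = 0) := by
    intro t
    rcases zm t with rfl | rfl
    · right; exact ⟨rfl, by decide⟩
    · left; exact ⟨by decide, by decide⟩
  exact this _

theorem pset_kerG {β : ESL.D (Additive S.G)} {x : S.G} :
    x ∈ PSet S (kerG S β) ↔ ETSC.PP (dt S) β (Additive.ofMul x) := Iff.rfl

/-- no sharp subgroup gives (ND) -/
theorem nd_of_not_sharp [Finite S.G] (hneg : S.neg = 1) (hH : ∀ H, ¬ Sharp S H) :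
    ETSC.ND (dt S) := by
  have hf : Finite (Additive S.G) := (inferInstance : Finite S.G)
  intro β hβ hx
  obtain ⟨x, hx⟩ := hx
  have h1 := hH (kerG S β)
  have hne : (PSet S (kerG S β)).Nonempty := ⟨x.toMul, hx⟩
  have h2 : ¬ kerG S β ≤ Subgroup.closure {z | ∃ x ∈ PSet S (kerG S β), ∃ y ∈ PSet S (kerG S β), x * y = z} :=
    fun hc => h1 ⟨index_kerG S hβ, hne, hc⟩
  obtain ⟨h, hh, hhn⟩ := SetLike.not_le_iff_exists.1 h2
  let K := Subgroup.closure {z | ∃ x ∈ PSet S (kerG S β), ∃ y ∈ PSet S (kerG S β), x * y = z}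
  obtain ⟨μ, hμ, hμ1⟩ := exists_sep (W := toSub S K) (x := Additive.ofMul h) hhn
  refine ⟨μ, ?_, ?_, ?_⟩
  · apply ETSC.const_mem (S := dt S) (dt_e S hneg)
    intro a b ha hb
    apply hμ (a + b)
    have h3 : a.toMul * b.toMul ∈ K := Subgroup.subset_closure ⟨a.toMul, ha, b.toMul, hb, rfl⟩
    exact h3
  · rintro rfl
    exact zero_ne_one hμ1
  · rintro rfl
    rw [mem_kerG, hμ1] at hh
    exact one_ne_zero hh

/-- (ND) gives a product decomposition -/
theorem localProd_of_nd [Finite S.G] (hneg : S.neg = 1) (hE : ETSC.Emb (dt S))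
    (hN : ETSC.ND (dt S)) : LocalProd S := by
  classical
  have hf : Finite (Additive S.G) := (inferInstance : Finite S.G)
  have hA := J1X.isAlt S hneg
  have hL := linked S hE
  have hD := dom S hneg hE hN
  have : Fintype (ESL.Fm (Additive S.G)) := Fintype.ofFinite _
  let At : Type := {w : ESL.Fm (Additive S.G) // PAtom (J1X.RR S) w}
  have : Fintype At := Fintype.ofFinite _
  let e : At ≃ Fin (Fintype.card At) := Fintype.equivFin At
  refine ⟨Fintype.card At, fun i a b => (e.symm i : ESL.Fm (Additive S.G)) (Additive.ofMul a) (Additive.ofMul b),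
    ?_, ?_, ?_, ?_⟩
  · intro i a b c
    show (e.symm i : ESL.Fm (Additive S.G)) (Additive.ofMul a + Additive.ofMul b) _ = _
    rw [map_add]; rfl
  · intro i a b c
    show (e.symm i : ESL.Fm (Additive S.G)) _ (Additive.ofMul b + Additive.ofMul c) = _
    rw [map_add]
  · intro a b c d
    constructor
    · intro h i
      exact form_eq S (e.symm i).2.1 hneg h
    · intro h
      apply hE (Additive.ofMul a) (Additive.ofMul b) (Additive.ofMul c) (Additive.ofMul d)
      intro r hr
      obtain ⟨T, hT, hTs⟩ := decomp' hA hD (r := r) hr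
      rw [hTs, LinearMap.sum_apply, LinearMap.sum_apply, LinearMap.sum_apply, LinearMap.sum_apply]
      apply Finset.sum_congr rfl
      intro w hw
      have h1 := h (e ⟨w, (hT w hw).1⟩)
      have h2 : e.symm (e ⟨w, (hT w hw).1⟩) = ⟨w, (hT w hw).1⟩ := e.symm_apply_apply _
      simp only [h2] at h1
      exact h1
  · intro x
    let A : Finset (ESL.Fm (Additive S.G)) := Finset.univ.filter (fun w => PAtom (J1X.RR S) w)
    have hAm : ∀ w, w ∈ A ↔ PAtom (J1X.RR S) w := by intro w; simp [A]
    let f : ESL.Fm (Additive S.G) → ESL.D (Additive S.G) := fun w =>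
      if h : PAtom (J1X.RR S) w then w (Additive.ofMul (x (e ⟨w, h⟩))) else 0
    have hI : ETSC.Ind (V := Additive S.G) A := by
      intro g hg hs w hw
      exact ind_all hA hL hD A.card A le_rfl (fun w hw => (hAm w).1 hw) g hg hs w hw
    obtain ⟨y, hy⟩ := ETSC.Ind.solve (S := dt S) (dt_e S hneg) hI (fun w hw => ((hAm w).1 hw).1) f (by
      intro w hw
      show (if h : PAtom (J1X.RR S) w then w (Additive.ofMul (x (e ⟨w, h⟩))) else 0) ∈ _
      rw [dif_pos ((hAm w).1 hw)]
      exact ⟨_, rfl⟩)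
    refine ⟨y.toMul, fun i v => ?_⟩
    have h1 := hy (e.symm i : ESL.Fm (Additive S.G)) ((hAm _).2 (e.symm i).2)
    have h2 : f (e.symm i : ESL.Fm (Additive S.G)) =
        (e.symm i : ESL.Fm (Additive S.G)) (Additive.ofMul (x i)) := by
      show (if h : PAtom (J1X.RR S) (e.symm i : ESL.Fm (Additive S.G)) then _ else _) = _
      rw [dif_pos (e.symm i).2]
      have h3 : e ⟨(e.symm i : ESL.Fm (Additive S.G)), (e.symm i).2⟩ = i := e.apply_symm_apply i
      rw [h3]
    rw [h2] at h1
    exact LinearMap.congr_fun h1 (Additive.ofMul v)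

end Pool.Agent.H34B
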