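import Pool.Agent.H34B.Dom

/-!
Independence of the ranges of the perfect atoms.
-/

set_option linter.unusedSectionVars false
set_option linter.unusedVariables false

namespace Pool.Agent.H34B

open Pool.Agent.ESL
open scoped BigOperators

variable {V : Type} [AddCommGroup V] [Module (ZMod 2) V] [Finite V]

/-- the ranges of at most `n` perfect atoms are independent -/
def Ind (R : FS V) (n : ℕ) : Prop :=
  ∀ T : Finset (Fm V), T.card ≤ n → (∀ w ∈ T, PAtom R w) →
    ∀ β : Fm V → D V, (∀ w ∈ T, β w ∈ LinearMap.range w) → ∑ w ∈ T, β w = 0 → ∀ w ∈ T, β w = 0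

theorem Ind.mono {R : FS V} {m n : ℕ} (h : Ind R n) (hmn : m ≤ n) : Ind R m :=
  fun T hT => h T (hT.trans hmn)

section

variable {R : FS V}

theorem sum_mem_R {T : Finset (Fm V)} (hT : ∀ w ∈ T, PAtom R w) : ∑ w ∈ T, w ∈ R :=
  Submodule.sum_mem _ fun w hw => (hT w hw).1

variable (hA : IsAlt R)

include hA in
theorem range_le_sum {n : ℕ} (hI : Ind R n) {T : Finset (Fm V)} (hn : T.card ≤ n)
    (hT : ∀ w ∈ T, PAtom R w) {w : Fm V} (hw : w ∈ T) :
    LinearMap.range w ≤ LinearMap.range (∑ w ∈ T, w) := by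
  rw [range_le_iff (hA w (hT w hw).1) (hA _ (sum_mem_R hT))]
  intro q hq
  rw [LinearMap.mem_ker] at hq ⊢
  have h1 := hI T hn hT (fun w => w q) (fun w _ => ⟨q, rfl⟩) (by
    rw [← hq, LinearMap.sum_apply])
  exact h1 w hw

include hA in
theorem sum_val_mem {n : ℕ} (hI : Ind R n) {T : Finset (Fm V)} (hn : T.card ≤ n)
    (hT : ∀ w ∈ T, PAtom R w) {β : Fm V → D V} (hβ : ∀ w ∈ T, β w ∈ LinearMap.range w) :
    ∑ w ∈ T, β w ∈ LinearMap.range (∑ w ∈ T, w) :=
  Submodule.sum_mem _ fun w hw => range_le_sum hA hI hn hT hw (hβ w hw)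

/-- an element of the range of a sum is a sum of elements of the ranges -/
theorem mem_range_sum {T : Finset (Fm V)} {b : D V} (h : b ∈ LinearMap.range (∑ w ∈ T, w)) :
    ∃ β : Fm V → D V, (∀ w ∈ T, β w ∈ LinearMap.range w) ∧ b = ∑ w ∈ T, β w := by
  obtain ⟨x, rfl⟩ := h
  exact ⟨fun w => w x, fun w _ => ⟨x, rfl⟩, by rw [LinearMap.sum_apply]⟩

include hA in
/-- independence of two distinct perfect atoms -/
theorem ind_two : Ind R 2 := by
  classical
  intro T hT hTA β hβ hs w hw
  by_contra h0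
  -- there is another one
  have h1 : ∃ w' ∈ T, w' ≠ w := by
    by_contra hc
    push Not at hc
    have : T = {w} := Finset.eq_singleton_iff_unique_mem.2 ⟨hw, hc⟩
    rw [this, Finset.sum_singleton] at hs
    exact h0 hs
  obtain ⟨w', hw', hne⟩ := h1
  have h2 : T = {w, w'} := by
    symm
    apply Finset.eq_of_subset_of_card_le
    · intro a ha
      rcases Finset.mem_insert.1 ha with rfl | ha
      · exact hw
      · rw [Finset.mem_singleton.1 ha]; exact hw'
    · rw [Finset.card_pair hne.symm]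
      exact hT
  rw [h2, Finset.sum_pair hne.symm] at hs
  have h3 : β w = β w' := eq_of_add hs
  exact hne (atom_eq hA (hTA w' hw') (hTA w hw) h0 (h3 ▸ hβ w' hw') (hβ w hw))

include hA in
theorem range_pair {a b : Fm V} (ha : PAtom R a) (hb : PAtom R b) (hab : a ≠ b) :
    LinearMap.range (a + b) = LinearMap.range a ⊔ LinearMap.range b := by
  classical
  have hT : ∀ w ∈ ({a, b} : Finset (Fm V)), PAtom R w := by
    intro w hw
    rcases Finset.mem_insert.1 hw with rfl | hw
    · exact ha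
    · rw [Finset.mem_singleton.1 hw]; exact hb
  apply le_antisymm
  · rintro _ ⟨x, rfl⟩
    rw [LinearMap.add_apply]
    exact Submodule.add_mem_sup ⟨x, rfl⟩ ⟨x, rfl⟩
  · have hc : ({a, b} : Finset (Fm V)).card ≤ 2 := Finset.card_le_two
    have h1 := range_le_sum hA (ind_two hA) hc hT (w := a) (by simp)
    have h2 := range_le_sum hA (ind_two hA) hc hT (w := b) (by simp)
    rw [Finset.sum_pair hab] at h1 h2
    exact sup_le h1 h2

include hA in
/-- three distinct perfect atoms, one in the sum of the other two -/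
theorem triple {a b c : Fm V} (ha : PAtom R a) (hb : PAtom R b) (hc : PAtom R c) (hab : a ≠ b)
    (hac : a ≠ c) (hbc : b ≠ c)
    (h : LinearMap.range c ≤ LinearMap.range a ⊔ LinearMap.range b) :
    LinearMap.range c ⊔ LinearMap.range a = LinearMap.range a ⊔ LinearMap.range b := by
  obtain ⟨β, hβ, h0⟩ := hc.nz
  obtain ⟨x, hx, y, hy, hxy⟩ := Submodule.mem_sup.1 (h hβ)
  have hy0 : y ≠ 0 := by
    rintro rfl
    rw [add_zero] at hxy
    exact hac (atom_eq hA ha hc h0 (hxy ▸ hx) hβ)
  have h1 : y ∈ LinearMap.range (a + c) := by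
    rw [range_pair hA ha hc hac]
    have : y = x + β := by rw [← hxy, add_add_self]
    rw [this]
    exact Submodule.add_mem_sup hx hβ
  have h2 : LinearMap.range b ≤ LinearMap.range (a + c) :=
    dom_range hA hb (R.add_mem ha.1 hc.1) hy0 hy h1
  rw [range_pair hA ha hc hac] at h2
  apply le_antisymm
  · exact sup_le h le_sup_left
  · rw [sup_comm (LinearMap.range c)]
    exact sup_le le_sup_left h2

/-- every form of `R` is a sum of distinct perfect atoms with smaller range -/
theorem decomp (hA : IsAlt R) (hD : Dom R) : ∀ n : ℕ, ∀ r ∈ R, Module.finrank (ZMod 2) (LinearMap.range r) ≤ n →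
    ∃ T : Finset (Fm V), (∀ w ∈ T, PAtom R w ∧ LinearMap.range w ≤ LinearMap.range r) ∧
      r = ∑ w ∈ T, w := by
  classical
  intro n
  induction n with
  | zero =>
    intro r hr hn
    refine ⟨∅, by simp, ?_⟩
    have h1 : LinearMap.range r = ⊥ := Submodule.finrank_eq_zero.1 (Nat.le_zero.1 hn)
    rw [Finset.sum_empty]
    exact LinearMap.range_eq_bot.1 h1
  | succ n ih =>
    intro r hr hn
    by_cases h0 : r = 0
    · exact ⟨∅, by simp, by rw [h0, Finset.sum_empty]⟩
    obtain ⟨x, hx⟩ := exists_val h0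
    obtain ⟨w, hw, hle⟩ := hD (r x) hx ⟨x, r, hr, rfl⟩
    have h1 := hle r hr ⟨x, rfl⟩
    obtain ⟨b, hb, hb0⟩ := hw.nz
    have hdis := dom_disj hw hr hb0 hb (h1 hb)
    have hle2 := range_add_le h1
    have hlt : LinearMap.range (r + w) < LinearMap.range r := by
      refine lt_of_le_of_ne hle2 ?_
      intro he
      exact hb0 (hdis b (he ▸ h1 hb) hb)
    have hfr := Submodule.finrank_lt_finrank_of_lt hlt
    obtain ⟨T, hT, hs⟩ := ih (r + w) (R.add_mem hr hw.1) (by omega)
    have hwT : w ∉ T := by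
      intro hm
      exact hb0 (hdis b ((hT w hm).2 hb) hb)
    refine ⟨insert w T, ?_, ?_⟩
    · intro a ha
      rcases Finset.mem_insert.1 ha with rfl | ha
      · exact ⟨hw, h1⟩
      · exact ⟨(hT a ha).1, (hT a ha).2.trans hle2⟩
    · rw [Finset.sum_insert hwT, ← hs, add_comm, add_add_self']

theorem decomp' (hA : IsAlt R) (hD : Dom R) {r : Fm V} (hr : r ∈ R) :
    ∃ T : Finset (Fm V), (∀ w ∈ T, PAtom R w ∧ LinearMap.range w ≤ LinearMap.range r) ∧
      r = ∑ w ∈ T, w :=
  decomp hA hD _ r hr le_rfl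

/-- if `w` is dominated by `b = (w + w') x` and `w' x ≠ 0`, then `w'` is dominated by `b` -/
theorem dom_other (hA : IsAlt R) (hL : Linked R) {w w' : Fm V} (hw : PAtom R w) (hw' : PAtom R w') {x : V}
    (hx : w' x ≠ 0)
    (h : ∀ r ∈ R, (w + w') x ∈ LinearMap.range r → LinearMap.range w ≤ LinearMap.range r) :
    ∀ r ∈ R, (w + w') x ∈ LinearMap.range r → LinearMap.range w' ≤ LinearMap.range r := by
  intro r hr hbr
  obtain ⟨y, hy⟩ := hbr
  obtain ⟨l, hl, l1, l2⟩ := hL _ (R.add_mem hw.1 hw'.1) r hr x y hy.symm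
  obtain ⟨c, hc, hc0⟩ := hw.nz
  have h1 : LinearMap.range w ≤ LinearMap.range l := h l hl ⟨x, l1⟩
  have h2 : w (x + y) = 0 := by
    have h3 : l (x + y) = 0 := by rw [map_add, l1, l2, add_self']
    rw [agree hw hl hc0 hc (h1 hc) (x + y) (by rw [h3]; exact Submodule.zero_mem _), h3]
  have h3 : w x = w y := by
    rw [map_add] at h2
    exact eq_of_add h2
  have h4 : LinearMap.range w ≤ LinearMap.range r := h r hr ⟨y, hy⟩
  have h5 : (r + w) y = w' x := by
    rw [LinearMap.add_apply, hy, LinearMap.add_apply, ← h3]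
    rw [add_comm (w x), add_add_self']
  have h6 : LinearMap.range w' ≤ LinearMap.range (r + w) :=
    dom_range hA hw' (R.add_mem hr hw.1) hx ⟨x, rfl⟩ ⟨y, h5⟩
  exact h6.trans (range_add_le h4)

end

end Pool.Agent.H34B
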