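import Pool.Agent.H34B.Ind

/-!
No three perfect atoms are dependent.
-/

set_option linter.unusedSectionVars false
set_option linter.unusedVariables false

namespace Pool.Agent.H34B

open Pool.Agent.ESL
open scoped BigOperators

variable {V : Type} [AddCommGroup V] [Module (ZMod 2) V] [Finite V]

/-- the number of nonzero elements of a nonzero space over `F_2` is odd -/
theorem card_nz_odd [Fintype (D V)] (W : Submodule (ZMod 2) (D V)) [DecidablePred (fun b => b ∈ W ∧ b ≠ 0)]
    (h : ∃ b ∈ W, b ≠ 0) :
    ((Finset.univ.filter (fun b => b ∈ W ∧ b ≠ 0)).card : ZMod 2) = 1 := by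
  classical
  obtain ⟨b0, hb0, h0⟩ := h
  have h1 : ∑ b ∈ (Finset.univ.filter (fun b => b ∈ W ∧ b ≠ 0)).erase b0, (1 : ZMod 2) = 0 := by
    apply Finset.sum_involution (fun b _ => b + b0)
    · intro b hb; decide
    · intro b hb _ he
      apply h0
      have := congrArg (fun t => b + t) he
      simpa [add_add_self, add_self'] using this
    · intro b hb
      simp only [Finset.mem_erase, Finset.mem_filter, Finset.mem_univ, true_and] at hb ⊢
      refine ⟨?_, W.add_mem hb.2.1 hb0, ?_⟩
      · intro he
        apply hb.2.2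
        have := congrArg (fun t => t + b0) he
        simpa [add_add_self', add_self'] using this
      · intro he
        exact hb.1 (eq_of_add he)
    · intro b hb
      exact add_add_self' b b0
  have h2 : b0 ∈ Finset.univ.filter (fun b => b ∈ W ∧ b ≠ 0) := by
    simp [hb0, h0]
  rw [← Finset.card_erase_add_one h2]
  rw [Finset.sum_const, nsmul_eq_mul, mul_one] at h1
  rw [Nat.cast_add, h1, zero_add, Nat.cast_one]

variable {R : FS V}

section three

variable (hA : IsAlt R) (hL : Linked R) (hD : Dom R)

include hA in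
/-- two distinct atoms inside `I = range a ⊕ range b` span `I` -/
theorem span_I {a b : Fm V} (ha : PAtom R a) (hb : PAtom R b) (hab : a ≠ b) {w w' : Fm V}
    (hw : PAtom R w) (hw' : PAtom R w') (hne : w ≠ w')
    (h : LinearMap.range w ≤ LinearMap.range a ⊔ LinearMap.range b)
    (h' : LinearMap.range w' ≤ LinearMap.range a ⊔ LinearMap.range b) :
    LinearMap.range w ⊔ LinearMap.range w' = LinearMap.range a ⊔ LinearMap.range b := by
  -- first replace `b` by `w`
  by_cases hwa : w = a
  · subst hwa
    by_cases hwb : w' = b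
    · rw [hwb]
    · rw [sup_comm]
      exact triple hA hw hb hw' hab hne (Ne.symm hwb) h'
  by_cases hwb : w = b
  · subst hwb
    by_cases hwa' : w' = a
    · rw [hwa', sup_comm]
    · have := triple hA hw ha hw' hab.symm hne (Ne.symm hwa') (by rwa [sup_comm])
      rw [sup_comm, this, sup_comm]
  have h1 : LinearMap.range w ⊔ LinearMap.range a = LinearMap.range a ⊔ LinearMap.range b :=
    triple hA ha hb hw hab (Ne.symm hwa) (Ne.symm hwb) h
  by_cases hwa' : w' = a
  · rw [hwa', h1]
  · have := triple hA hw ha hw' hwa hne (Ne.symm hwa') (by rw [h1]; exact h')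
    rw [sup_comm, this, h1]

include hA hD in
/-- `σ + w` is an atom if `range σ = I` -/
theorem add_atom {a b : Fm V} (ha : PAtom R a) (hb : PAtom R b) (hab : a ≠ b) {s : Fm V} (hs : s ∈ R)
    (hsI : LinearMap.range s = LinearMap.range a ⊔ LinearMap.range b) {w : Fm V} (hw : PAtom R w)
    (h : LinearMap.range w ≤ LinearMap.range a ⊔ LinearMap.range b) :
    PAtom R (s + w) ∧ LinearMap.range (s + w) ≤ LinearMap.range a ⊔ LinearMap.range b := by
  classical
  have hle : LinearMap.range w ≤ LinearMap.range s := by rw [hsI]; exact h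
  have hle2 : LinearMap.range (s + w) ≤ LinearMap.range a ⊔ LinearMap.range b := by
    rw [← hsI]; exact range_add_le hle
  obtain ⟨c, hc, hc0⟩ := hw.nz
  have hdis := dom_disj hw hs hc0 hc (hle hc)
  refine ⟨?_, hle2⟩
  obtain ⟨T, hT, hTs⟩ := decomp' hA hD (R.add_mem hs hw.1)
  -- `T` is nonempty
  have hne : T.Nonempty := by
    rw [Finset.nonempty_iff_ne_empty]
    rintro rfl
    rw [Finset.sum_empty] at hTs
    have h1 : s = w := eq_of_add hTs
    have h2 : LinearMap.range a ≤ LinearMap.range w := by rw [← h1, hsI]; exact le_sup_left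
    have h3 : LinearMap.range b ≤ LinearMap.range w := by rw [← h1, hsI]; exact le_sup_right
    obtain ⟨x, hx, hx0⟩ := ha.nz
    obtain ⟨y, hy, hy0⟩ := hb.nz
    exact hab ((atom_eq hA ha hw hx0 hx (h2 hx)).trans (atom_eq hA hb hw hy0 hy (h3 hy)).symm)
  obtain ⟨t, ht⟩ := hne
  have hT1 : T = {t} := by
    apply Finset.eq_singleton_iff_unique_mem.2 ⟨ht, ?_⟩
    intro t' ht'
    by_contra hne
    have h1 := span_I hA ha hb hab (hT t ht).1 (hT t' ht').1 (Ne.symm hne)
      ((hT t ht).2.trans hle2) ((hT t' ht').2.trans hle2)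
    have h2 : LinearMap.range a ⊔ LinearMap.range b ≤ LinearMap.range (s + w) := by
      rw [← h1]; exact sup_le (hT t ht).2 (hT t' ht').2
    exact hc0 (hdis c (h2 (h hc)) hc)
  rw [hTs, hT1, Finset.sum_singleton]
  exact (hT t ht).1

include hA hL hD in
/-- every element of `I` lies in the range of an atom inside `I` -/
theorem cover_I {a b c : Fm V} (ha : PAtom R a) (hb : PAtom R b) (hc : PAtom R c) (hab : a ≠ b)
    (hac : a ≠ c) (hbc : b ≠ c) (h : LinearMap.range c ≤ LinearMap.range a ⊔ LinearMap.range b)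
    {β : D V} (hβ : β ∈ LinearMap.range a ⊔ LinearMap.range b) (h0 : β ≠ 0) :
    ∃ w, PAtom R w ∧ LinearMap.range w ≤ LinearMap.range a ⊔ LinearMap.range b ∧
      β ∈ LinearMap.range w := by
  -- the two forms with range `I`
  have hs : LinearMap.range (a + b) = LinearMap.range a ⊔ LinearMap.range b := range_pair hA ha hb hab
  have hs' : LinearMap.range (a + c) = LinearMap.range a ⊔ LinearMap.range b := by
    rw [range_pair hA ha hc hac, sup_comm]
    exact triple hA ha hb hc hab hac hbc h
  have hbc' : LinearMap.range (b + c) = LinearMap.range a ⊔ LinearMap.range b := by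
    rw [range_pair hA hb hc hbc]
    exact span_I hA ha hb hab hb hc hbc le_sup_right h
  have hsR := R.add_mem ha.1 hb.1
  have hsR' := R.add_mem ha.1 hc.1
  obtain ⟨x, hx⟩ : β ∈ LinearMap.range (a + b) := by rw [hs]; exact hβ
  obtain ⟨x', hx'⟩ : β ∈ LinearMap.range (a + c) := by rw [hs']; exact hβ
  obtain ⟨w, hw, hdom⟩ := hD β h0 ⟨x, _, hsR, hx⟩
  have hwI : LinearMap.range w ≤ LinearMap.range a ⊔ LinearMap.range b := by
    rw [← hs]; exact hdom _ hsR ⟨x, hx⟩
  obtain ⟨hw', hw'I⟩ := add_atom hA hD ha hb hab hsR hs hw hwI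
  have hsum : w + ((a + b) + w) = a + b := by
    rw [add_comm (a + b) w, add_add_self]
  by_cases hz : ((a + b) + w) x = 0
  · refine ⟨w, hw, hwI, x, ?_⟩
    have h1 := congrArg (fun k : Fm V => k x) hsum
    simp only [LinearMap.add_apply] at h1 hz
    have h2 : (a + b) x = β := hx
    rw [LinearMap.add_apply] at h2
    rw [h2] at hz
    exact (eq_of_add hz).symm
  · exfalso
    -- every form with `β` in its range contains `I`
    have hd2 : ∀ r ∈ R, β ∈ LinearMap.range r → LinearMap.range ((a + b) + w) ≤ LinearMap.range r := by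
      have h1 := dom_other hA hL hw hw' (x := x) hz (by
        rw [hsum, hx]; exact hdom)
      rw [hsum, hx] at h1
      exact h1
    obtain ⟨l, hl, l1, l2⟩ := hL _ hsR _ hsR' x x' (hx.trans hx'.symm)
    rw [hx] at l1 l2
    have hlI : LinearMap.range a ⊔ LinearMap.range b ≤ LinearMap.range l := by
      rw [← hs, ← hsum]
      rintro _ ⟨y, rfl⟩
      rw [LinearMap.add_apply]
      exact Submodule.add_mem _ (hdom l hl ⟨x, l1⟩ ⟨y, rfl⟩) (hd2 l hl ⟨x, l1⟩ ⟨y, rfl⟩)
    have hk : l (x + x') = 0 := by rw [map_add, l1, l2, add_self']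
    have k1 : (a + b) (x + x') = 0 := by
      have := (range_le_iff (hA _ hsR) (hA _ hl)).1 (hs ▸ hlI)
      exact this hk
    have k2 : (a + b) x' = β := by
      rw [map_add, hx] at k1
      exact (eq_of_add k1).symm
    have k3 : (b + c) x' = 0 := by
      have e : b + c = (a + b) + (a + c) := by
        rw [add_comm a b, add_assoc, add_add_self]
      rw [e, LinearMap.add_apply, k2, hx', add_self']
    have k4 : (a + b) x' = 0 := by
      have h1 : LinearMap.range (a + b) ≤ LinearMap.range (b + c) := by rw [hs, hbc']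
      exact (range_le_iff (hA _ hsR) (hA _ (R.add_mem hb.1 hc.1))).1 h1 k3
    exact h0 (k2 ▸ k4)

include hA hL hD in
/-- no atom lies inside the sum of two others -/
theorem no_triple {a b c : Fm V} (ha : PAtom R a) (hb : PAtom R b) (hc : PAtom R c) (hab : a ≠ b)
    (hac : a ≠ c) (hbc : b ≠ c) (h : LinearMap.range c ≤ LinearMap.range a ⊔ LinearMap.range b) :
    False := by
  classical
  have : Fintype (D V) := Fintype.ofFinite _
  have : Fintype (Fm V) := Fintype.ofFinite _
  let Om : Finset (Fm V) := Finset.univ.filter (fun w => PAtom R w ∧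
    LinearMap.range w ≤ LinearMap.range a ⊔ LinearMap.range b)
  have hOm : ∀ w, w ∈ Om ↔ PAtom R w ∧ LinearMap.range w ≤ LinearMap.range a ⊔ LinearMap.range b := by
    intro w; simp [Om]
  have hs := range_pair hA ha hb hab
  have hsR := R.add_mem ha.1 hb.1
  have hs0 : a + b ≠ 0 := fun he => hab (eq_of_add he)
  -- the number of atoms is even
  have h1 : ∑ w ∈ Om, (1 : ZMod 2) = 0 := by
    apply Finset.sum_involution (fun w _ => (a + b) + w)
    · intro w hw; decide
    · intro w hw _ he
      apply hs0
      have := congrArg (fun t => t + w) he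
      simpa [add_add_self', add_self'] using this
    · intro w hw
      rw [hOm] at hw ⊢
      exact add_atom hA hD ha hb hab hsR hs hw.1 hw.2
    · intro w hw
      exact add_add_self _ _
  -- the nonzero elements of `I`
  have h2 : Finset.univ.filter (fun β : D V => β ∈ LinearMap.range a ⊔ LinearMap.range b ∧ β ≠ 0) =
      Om.biUnion (fun w => Finset.univ.filter (fun β : D V => β ∈ LinearMap.range w ∧ β ≠ 0)) := by
    ext β
    simp only [Finset.mem_filter, Finset.mem_univ, true_and, Finset.mem_biUnion]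
    constructor
    · rintro ⟨hβ, h0⟩
      obtain ⟨w, hw, hwI, hβw⟩ := cover_I hA hL hD ha hb hc hab hac hbc h hβ h0
      exact ⟨w, (hOm w).2 ⟨hw, hwI⟩, hβw, h0⟩
    · rintro ⟨w, hw, hβw, h0⟩
      exact ⟨((hOm w).1 hw).2 hβw, h0⟩
  have h3 := congrArg (fun t : Finset (D V) => (t.card : ZMod 2)) h2
  rw [Finset.card_biUnion (by
    intro w hw w' hw' hne
    rw [Function.onFun, Finset.disjoint_left]
    intro β hβ hβ'
    simp only [Finset.mem_filter, Finset.mem_univ, true_and] at hβ hβ'
    exact hne (atom_eq hA ((hOm w).1 hw).1 ((hOm w').1 hw').1 hβ.2 hβ.1 hβ'.1)), Nat.cast_sum,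
    Finset.sum_congr rfl (fun w hw => card_nz_odd (LinearMap.range w) ((hOm w).1 hw).1.nz), h1] at h3
  obtain ⟨β, hβ, h0⟩ := ha.nz
  rw [card_nz_odd _ ⟨β, Submodule.mem_sup_left hβ, h0⟩] at h3
  exact one_ne_zero h3

end three

end Pool.Agent.H34B
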