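import Pool.Agent.H34B.Final
import Pool.Agent.ETSC.Atoms
import Pool.Agent.ETC.ToData
import Pool.Agent.ESL.Eight
import Pool.Agent.ESG.All

/-!
From the structure to its form space: linkage, domination, the elementary type.
-/

set_option linter.unusedSectionVars false
set_option linter.unusedVariables false

namespace Pool.Agent.H34B

open QS Pool.Agent.ESL
open Pool.Agent.Helper58.PLine (QData)

attribute [local instance] J1X.mdl

variable (S : QStruct)

/-- the data of `S` -/
def dt : QData (Additive S.G) S.Q := ETC.toData S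

theorem dt_e (hneg : S.neg = 1) : (dt S).e = 0 := by
  show Additive.ofMul S.neg = 0
  rw [hneg]; rfl

theorem mem_iff (k : ESL.Fm (Additive S.G)) : k ∈ J1X.RR S ↔ k ∈ ETSC.R (dt S) := Iff.rfl

theorem pp_of_Lx {b : ESL.D (Additive S.G)} {x : Additive S.G} (h : b ∈ ESL.Lx (J1X.RR S) x) :
    ETSC.PP (dt S) b x := by
  obtain ⟨k, hk, rfl⟩ := h
  exact ETSC.PP_of (S := dt S) hk rfl

theorem Lx_of_pp [Finite S.G] (hE : ETSC.Emb (dt S)) {b : ESL.D (Additive S.G)} {x : Additive S.G}
    (h : ETSC.PP (dt S) b x) : b ∈ ESL.Lx (J1X.RR S) x := by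
  have hf : Finite (Additive S.G) := (inferInstance : Finite S.G)
  obtain ⟨k, hk, e⟩ := ETSC.ext1 hE h
  exact ⟨k, hk, e⟩

theorem linked [Finite S.G] (hE : ETSC.Emb (dt S)) : Linked (J1X.RR S) := by
  have hf : Finite (Additive S.G) := (inferInstance : Finite S.G)
  intro k hk k' hk' x x' he
  obtain ⟨l, hl, e1, e2⟩ := ETSC.ext2 (S := dt S) hE (x := x) (z := x') (β := k x) (γ := k x)
    (ETSC.PP_of (S := dt S) hk rfl) (ETSC.PP_of (S := dt S) hk' he.symm) (by
      have e : k x + k x = 0 := ZModModule.add_self _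
      rw [e]
      exact ETSC.PP_zero _)
  exact ⟨l, hl, e1, e2⟩

theorem dom [Finite S.G] (hneg : S.neg = 1) (hE : ETSC.Emb (dt S)) (hN : ETSC.ND (dt S)) :
    Dom (J1X.RR S) := by
  have hf : Finite (Additive S.G) := (inferInstance : Finite S.G)
  intro b hb hx
  obtain ⟨x, hx⟩ := hx
  obtain ⟨w, hw, hle⟩ := ETSC.exists_atom (S := dt S) (dt_e S hneg) hE hN hb ⟨x, pp_of_Lx S hx⟩
  refine ⟨w, ⟨hw.mem, hw.ne, ?_⟩, ?_⟩
  · intro q c hc hc0 hq
    exact hw.per q c hc hc0 (pp_of_Lx S hq)
  · intro r hr hbr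
    intro c hc
    exact hle hc r hr hbr

theorem sl_RR [Finite S.G] (hneg : S.neg = 1) (hE : ETSC.Emb (dt S)) (hN : ETSC.ND (dt S)) :
    SL (J1X.RR S) :=
  haveI hf : Finite (Additive S.G) := (inferInstance : Finite S.G)
  sl_of_dom (J1X.isAlt S hneg) (linked S hE) (dom S hneg hE hN)

theorem extProp_of_sl [Finite S.G] (hE : ETSC.Emb (dt S)) (hSL : SL (J1X.RR S)) : ExtProp S := by
  classical
  have hf : Finite (Additive S.G) := (inferInstance : Finite S.G)
  intro U β h1 h2 h3
  let U' : Submodule (ZMod 2) (Additive S.G) := AddSubgroup.toZModSubmodule 2 (Subgroup.toAddSubgroup U)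
  have hU' : ∀ v : Additive S.G, v ∈ U' ↔ v.toMul ∈ U := fun v => Iff.rfl
  let b : U' →ₗ[ZMod 2] D (Additive S.G) := AddMonoidHom.toZModLinearMap 2
    (AddMonoidHom.mk' (fun x : U' => (AddMonoidHom.toZModLinearMap 2
      (AddMonoidHom.mk' (fun y : Additive S.G => β (x : Additive S.G).toMul y.toMul)
        (fun y y' => h2 _ x.2 _ _)) : D (Additive S.G))) (by
      intro x x'
      apply LinearMap.ext
      intro y
      exact h1 _ x.2 _ x'.2 _))
  have hb : ∀ (u : U') y, b u y = β (u : Additive S.G).toMul y.toMul := fun _ _ => rfl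
  obtain ⟨k, hk, hk'⟩ := hSL U' b (by
    intro u
    apply Lx_of_pp S hE
    intro v hv
    rw [hb]
    exact h3 _ u.2 _ hv)
  refine ⟨fun u v => k (Additive.ofMul u) (Additive.ofMul v), ?_, ?_, ?_, ?_⟩
  · intro u u' v
    show k (Additive.ofMul u + Additive.ofMul u') (Additive.ofMul v) = _
    rw [map_add]; rfl
  · intro u v v'
    show k (Additive.ofMul u) (Additive.ofMul v + Additive.ofMul v') = _
    rw [map_add]
  · intro u v h
    exact hk _ _ h
  · intro u hu v
    have := hk' ⟨Additive.ofMul u, hu⟩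
    show k (Additive.ofMul u) (Additive.ofMul v) = _
    rw [this, hb]; rfl

theorem elemType_of_nd [Finite S.G] (hneg : S.neg = 1) (hE : ETSC.Emb (dt S))
    (hN : ETSC.ND (dt S)) : ElemType S :=
  (Pool.Agent.ESG.elemType_iff S inferInstance).2 (extProp_of_sl S hE (sl_RR S hneg hE hN))

end Pool.Agent.H34B
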